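import Pool.Agent.BTL.Stmts

/-! BTL, module ccac: comparison of the smoothed area count with the area of the disc. -/

set_option autoImplicit false

open MeasureTheory

namespace Pool.Agent.BTL.H61

open Pool.Agent.BTL

/-- nearest integer point -/
noncomputable def rnd (y : ℝ × ℝ) : ℤ × ℤ := (⌊y.1 + 1 / 2⌋, ⌊y.2 + 1 / 2⌋)

theorem rnd_iff (x : ℤ × ℤ) (z : ℝ × ℝ) : rnd (rc x + z) = x ↔ z ∈ sq0 := by
  have key : ∀ (n : ℤ) (t : ℝ), ⌊(n : ℝ) + t + 1 / 2⌋ = n ↔ t ∈ Set.Ico (-1/2 : ℝ) (1/2) := by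
    intro n t
    rw [Int.floor_eq_iff, Set.mem_Ico]
    constructor
    · rintro ⟨h1, h2⟩
      constructor <;> linarith
    · rintro ⟨h1, h2⟩
      constructor <;> linarith
  have h1 := key x.1 z.1
  have h2 := key x.2 z.2
  unfold rnd sq0 rc
  rw [Set.mem_prod, Prod.ext_iff]
  simp only [Prod.fst_add, Prod.snd_add]
  rw [h1, h2]

theorem measurable_rnd : Measurable rnd := by
  unfold rnd
  exact (Int.measurable_floor.comp (by fun_prop)).prodMk (Int.measurable_floor.comp (by fun_prop))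

/-- the window -/
def WW (h : ℝ) (A : ℝ × ℝ × ℝ) (s : ℝ) : Set (ℝ × ℝ) := {y | s ≤ qf A y ∧ qf A y < s + h}

theorem measurableSet_WW (h : ℝ) (A : ℝ × ℝ × ℝ) (s : ℝ) : MeasurableSet (WW h A s) := by
  have hcont : Continuous fun y : ℝ × ℝ => qf A y := by unfold qf; fun_prop
  exact (isClosed_le continuous_const hcont).measurableSet.inter
    (isOpen_lt hcont continuous_const).measurableSet

theorem vol_piece (h : ℝ) (A : ℝ × ℝ × ℝ) (s : ℝ) (x : ℤ × ℤ) :
    volume {z : ℝ × ℝ | z ∈ sq0 ∧ s ≤ qf A (rc x + z) ∧ qf A (rc x + z) < s + h} =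
      volume ((rnd ⁻¹' {x}) ∩ WW h A s) := by
  have e : {z : ℝ × ℝ | z ∈ sq0 ∧ s ≤ qf A (rc x + z) ∧ qf A (rc x + z) < s + h} =
      (fun z => rc x + z) ⁻¹' ((rnd ⁻¹' {x}) ∩ WW h A s) := by
    ext z
    simp only [Set.mem_setOf_eq, Set.mem_preimage, Set.mem_inter_iff, Set.mem_singleton_iff,
      rnd_iff, WW]
  rw [e, measure_preimage_add]

theorem WW_finite (h1 : S_area_annulus) {M : ℝ} (hM : 1 ≤ M) {A : ℝ × ℝ × ℝ} (hA : A ∈ KM M)
    {h : ℝ} (hh : 0 ≤ h) (s : ℝ) : volume (WW h A s) ≤ ENNReal.ofReal (4 * M * h) := by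
  refine le_trans (measure_mono ?_) (h1 M hM A hA s h hh)
  rintro y ⟨h2, h3⟩
  exact ⟨h2, h3.le⟩

/-- union of the unit squares -/
def UU (T : ℝ) : Set (ℝ × ℝ) := {y | rnd y ∈ ball T}

/-- the disc -/
def BB (T : ℝ) : Set (ℝ × ℝ) := {y | nr y < T ^ 2}

theorem measurableSet_UU (T : ℝ) : MeasurableSet (UU T) :=
  measurable_rnd (ball T).finite_toSet.measurableSet

theorem measurableSet_BB (T : ℝ) : MeasurableSet (BB T) := by
  have hcont : Continuous fun y : ℝ × ℝ => nr y := by unfold nr; fun_prop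
  exact (isOpen_lt hcont continuous_const).measurableSet

theorem ccnt_eq (h1 : S_area_annulus) {M : ℝ} (hM : 1 ≤ M) {A : ℝ × ℝ × ℝ} (hA : A ∈ KM M)
    {h : ℝ} (hh : 0 ≤ h) (T s : ℝ) : ccnt T h A s = (volume (UU T ∩ WW h A s)).toReal := by
  have e : UU T ∩ WW h A s = ⋃ x ∈ ball T, (rnd ⁻¹' {x}) ∩ WW h A s := by
    ext y
    simp only [UU, Set.mem_inter_iff, Set.mem_setOf_eq, Set.mem_iUnion, Set.mem_preimage,
      Set.mem_singleton_iff, exists_prop]
    constructor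
    · rintro ⟨h2, h3⟩
      exact ⟨rnd y, h2, rfl, h3⟩
    · rintro ⟨x, h2, h3, h4⟩
      rw [h3]
      exact ⟨h2, h4⟩
  rw [e, measure_biUnion_finset, ENNReal.toReal_sum]
  · unfold ccnt
    refine Finset.sum_congr rfl fun x _ => ?_
    rw [vol_piece]
  · intro x _
    refine ne_top_of_le_ne_top (ENNReal.ofReal_ne_top) (le_trans (measure_mono ?_)
      (WW_finite h1 hM hA hh s))
    exact Set.inter_subset_right
  · intro x _ x' _ hne
    rw [Function.onFun, Set.disjoint_left]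
    rintro y ⟨h2, _⟩ ⟨h3, _⟩
    simp only [Set.mem_preimage, Set.mem_singleton_iff] at h2 h3
    exact hne (h2.symm.trans h3)
  · intro x _
    exact (measurable_rnd (measurableSet_singleton x)).inter (measurableSet_WW h A s)

theorem acnt_eq (T h : ℝ) (A : ℝ × ℝ × ℝ) (s : ℝ) :
    acnt T h A s = (volume (BB T ∩ WW h A s)).toReal := rfl

/-- the annulus -/
def AN (T : ℝ) : Set (ℝ × ℝ) := {y | (T - 1) ^ 2 ≤ nr y ∧ nr y ≤ (T - 1) ^ 2 + 4 * T}

theorem measurableSet_AN (T : ℝ) : MeasurableSet (AN T) := by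
  have hcont : Continuous fun y : ℝ × ℝ => nr y := by unfold nr; fun_prop
  exact (isClosed_le continuous_const hcont).measurableSet.inter
    (isClosed_le hcont continuous_const).measurableSet

theorem vol_AN (h1 : S_area_annulus) {T : ℝ} (hT : 1 ≤ T) :
    volume (AN T) ≤ ENNReal.ofReal (16 * T) := by
  have h2 : ((1 : ℝ), (0 : ℝ), (1 : ℝ)) ∈ KM 1 := by
    intro x
    simp only [qf, nr]
    constructor <;> nlinarith
  have h3 := h1 1 le_rfl _ h2 ((T - 1) ^ 2) (4 * T) (by linarith)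
  have e : AN T = {y : ℝ × ℝ | (T - 1) ^ 2 ≤ qf ((1 : ℝ), (0 : ℝ), (1 : ℝ)) y ∧
      qf ((1 : ℝ), (0 : ℝ), (1 : ℝ)) y ≤ (T - 1) ^ 2 + 4 * T} := by
    ext y
    have : qf ((1 : ℝ), (0 : ℝ), (1 : ℝ)) y = nr y := by simp only [qf, nr]; ring
    simp only [AN, Set.mem_setOf_eq, this]
  rw [e]
  refine le_trans h3 (le_of_eq ?_)
  congr 1
  ring

theorem nr_close (y : ℝ × ℝ) : nr (y - rc (rnd y)) ≤ 1 / 2 := by
  have key : ∀ t : ℝ, (t - (⌊t + 1 / 2⌋ : ℝ)) ^ 2 ≤ 1 / 4 := by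
    intro t
    have h1 := Int.floor_le (t + 1 / 2)
    have h2 := Int.lt_floor_add_one (t + 1 / 2)
    nlinarith
  have h1 := key y.1
  have h2 := key y.2
  unfold nr rc rnd
  simp only [Prod.fst_sub, Prod.snd_sub]
  linarith

/-- triangle inequality for the Euclidean norm, in squared form -/
theorem nr_tri {u v : ℝ × ℝ} {R : ℝ} (hR : 0 ≤ R) (h1 : nr u ≤ R ^ 2) (h2 : nr (v - u) ≤ 1) :
    nr v ≤ (R + 1) ^ 2 := by
  unfold nr at *
  simp only [Prod.fst_sub, Prod.snd_sub] at h2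
  set a := u.1
  set b := u.2
  set c := v.1 - u.1 with hc
  set d := v.2 - u.2 with hd
  have e1 : v.1 = a + c := by rw [hc]; ring
  have e2 : v.2 = b + d := by rw [hd]; ring
  rw [e1, e2]
  have h3 : (a * c + b * d) ^ 2 ≤ R ^ 2 := by
    have h4 : (a * c + b * d) ^ 2 ≤ (a ^ 2 + b ^ 2) * (c ^ 2 + d ^ 2) := by
      nlinarith [sq_nonneg (a * d - b * c)]
    have h5 : (a ^ 2 + b ^ 2) * (c ^ 2 + d ^ 2) ≤ R ^ 2 * 1 :=
      mul_le_mul h1 h2 (by positivity) (by positivity)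
    linarith
  have h4 : a * c + b * d ≤ R := abs_le_of_sq_le_sq' h3 hR |>.2
  nlinarith

theorem symm_sub {T : ℝ} (hT : 1 ≤ T) (y : ℝ × ℝ) (hy : ¬ (y ∈ UU T ↔ y ∈ BB T)) : y ∈ AN T := by
  have h0 := nr_close y
  have h0' : nr (rc (rnd y) - y) ≤ 1 := by
    have : nr (rc (rnd y) - y) = nr (y - rc (rnd y)) := by
      unfold nr; simp only [Prod.fst_sub, Prod.snd_sub]; ring
    linarith
  have hU : y ∈ UU T ↔ nr (rc (rnd y)) < T ^ 2 := by
    unfold UU
    rw [Set.mem_setOf_eq, mem_ball]; rfl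
  have hB : y ∈ BB T ↔ nr y < T ^ 2 := Iff.rfl
  rw [hU, hB] at hy
  rcases lt_or_ge (nr y) (T ^ 2) with h1 | h1
  · have h2 : ¬ nr (rc (rnd y)) < T ^ 2 := fun h => hy ⟨fun _ => h1, fun _ => h⟩
    push Not at h2
    refine ⟨?_, ?_⟩
    · by_contra h3
      push Not at h3
      -- strict triangle inequality
      obtain ⟨R, hR0, hR1, hR2⟩ : ∃ R : ℝ, 0 ≤ R ∧ nr y ≤ R ^ 2 ∧ R < T - 1 := by
        refine ⟨Real.sqrt (nr y), Real.sqrt_nonneg _, (Real.sq_sqrt (nr_nonneg y)).ge, ?_⟩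
        rw [Real.sqrt_lt' (by
          rcases eq_or_lt_of_le hT with h4 | h4
          · rw [← h4] at h3
            have := nr_nonneg y
            norm_num at h3
            linarith
          · linarith)]
        exact h3
      have h4 := nr_tri hR0 hR1 h0'
      have h5 : (R + 1) ^ 2 < T ^ 2 := by nlinarith
      linarith
    · nlinarith
  · have h2 : nr (rc (rnd y)) < T ^ 2 := by
      by_contra h2
      exact hy ⟨fun h => absurd h h2, fun h => absurd h (not_lt.mpr h1)⟩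
    refine ⟨by nlinarith, ?_⟩
    have h4 := nr_tri (by linarith : (0 : ℝ) ≤ T) h2.le (by linarith : nr (y - rc (rnd y)) ≤ 1)
    nlinarith

theorem diff_bound (h1 : S_area_annulus) {M : ℝ} (hM : 1 ≤ M) {A : ℝ × ℝ × ℝ} (hA : A ∈ KM M)
    {h : ℝ} (hh : 0 ≤ h) {T : ℝ} (hT : 1 ≤ T) (s : ℝ) :
    |ccnt T h A s - acnt T h A s| ≤ (volume (AN T ∩ WW h A s)).toReal := by
  have hfin : ∀ X : Set (ℝ × ℝ), volume (X ∩ WW h A s) ≠ ⊤ := fun X =>
    ne_top_of_le_ne_top ENNReal.ofReal_ne_top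
      (le_trans (measure_mono Set.inter_subset_right) (WW_finite h1 hM hA hh s))
  have key : ∀ X Y : Set (ℝ × ℝ), (∀ y, y ∈ X → y ∉ Y → y ∈ AN T) →
      (volume (X ∩ WW h A s)).toReal ≤ (volume (Y ∩ WW h A s)).toReal +
        (volume (AN T ∩ WW h A s)).toReal := by
    intro X Y hXY
    rw [← ENNReal.toReal_add (hfin Y) (hfin _)]
    refine ENNReal.toReal_mono (ENNReal.add_ne_top.mpr ⟨hfin Y, hfin _⟩) ?_
    refine le_trans (measure_mono ?_) (measure_union_le _ _)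
    rintro y ⟨h2, h3⟩
    by_cases h4 : y ∈ Y
    · exact Or.inl ⟨h4, h3⟩
    · exact Or.inr ⟨hXY y h2 h4, h3⟩
  rw [ccnt_eq h1 hM hA hh, acnt_eq]
  have k1 := key (UU T) (BB T) (fun y h2 h3 => symm_sub hT y (fun h4 => h3 (h4.mp h2)))
  have k2 := key (BB T) (UU T) (fun y h2 h3 => symm_sub hT y (fun h4 => h3 (h4.mpr h2)))
  rw [abs_le]
  constructor <;> linarith

theorem tonelli (h : ℝ) (A : ℝ × ℝ × ℝ) (T : ℝ) :
    ∫⁻ s, volume (AN T ∩ WW h A s) = ENNReal.ofReal h * volume (AN T) := by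
  set S : Set (ℝ × (ℝ × ℝ)) := {p | p.2 ∈ AN T ∧ p.1 ≤ qf A p.2 ∧ qf A p.2 < p.1 + h} with hS
  have hcont : Continuous fun y : ℝ × ℝ => qf A y := by unfold qf; fun_prop
  have hSm : MeasurableSet S := by
    have h1 : MeasurableSet {p : ℝ × (ℝ × ℝ) | p.2 ∈ AN T} := measurable_snd (measurableSet_AN T)
    have h2 : MeasurableSet {p : ℝ × (ℝ × ℝ) | p.1 ≤ qf A p.2} :=
      (isClosed_le continuous_fst (hcont.comp continuous_snd)).measurableSet
    have h3 : MeasurableSet {p : ℝ × (ℝ × ℝ) | qf A p.2 < p.1 + h} :=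
      (isOpen_lt (hcont.comp continuous_snd) (by fun_prop)).measurableSet
    exact h1.inter (h2.inter h3)
  have e1 := Measure.prod_apply (μ := (volume : Measure ℝ)) (ν := (volume : Measure (ℝ × ℝ))) hSm
  have e2 := Measure.prod_apply_symm (μ := (volume : Measure ℝ))
    (ν := (volume : Measure (ℝ × ℝ))) hSm
  have e3 : ∀ s, Prod.mk s ⁻¹' S = AN T ∩ WW h A s := by
    intro s; ext y; rfl
  have e4 : ∀ y : ℝ × ℝ, volume ((fun s : ℝ => (s, y)) ⁻¹' S) =
      Set.indicator (AN T) (fun _ => ENNReal.ofReal h) y := by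
    intro y
    by_cases hy : y ∈ AN T
    · rw [Set.indicator_of_mem hy]
      have : (fun s : ℝ => (s, y)) ⁻¹' S = Set.Ioc (qf A y - h) (qf A y) := by
        ext s
        simp only [hS, Set.mem_preimage, Set.mem_setOf_eq, Set.mem_Ioc]
        constructor
        · rintro ⟨_, h2, h3⟩
          exact ⟨by linarith, h2⟩
        · rintro ⟨h2, h3⟩
          exact ⟨hy, h3, by linarith⟩
      rw [this, Real.volume_Ioc]
      congr 1; ring
    · rw [Set.indicator_of_notMem hy]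
      have : (fun s : ℝ => (s, y)) ⁻¹' S = ∅ := by
        ext s
        simp only [hS, Set.mem_preimage, Set.mem_setOf_eq, Set.mem_empty_iff_false, iff_false]
        exact fun h2 => hy h2.1
      rw [this, measure_empty]
  simp_rw [e3] at e1
  simp_rw [e4] at e2
  rw [← e1, e2, lintegral_indicator (measurableSet_AN T), setLIntegral_const]

theorem main_ccnt_acnt (h1 : S_area_annulus) : S_ccnt_acnt := by
  intro M hM
  refine ⟨64 * M, by linarith, ?_⟩
  intro T h A hT hh hA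
  have hh0 : 0 ≤ h := by linarith
  have hM0 : 0 ≤ M := by linarith
  have hle : ∀ s, ENNReal.ofReal ((ccnt T h A s - acnt T h A s) ^ 2) ≤
      ENNReal.ofReal (4 * M * h) * volume (AN T ∩ WW h A s) := by
    intro s
    have h2 := diff_bound h1 hM hA hh0 hT s
    have h3 : volume (AN T ∩ WW h A s) ≤ ENNReal.ofReal (4 * M * h) :=
      le_trans (measure_mono Set.inter_subset_right) (WW_finite h1 hM hA hh0 s)
    have h4 : volume (AN T ∩ WW h A s) ≠ ⊤ := ne_top_of_le_ne_top ENNReal.ofReal_ne_top h3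
    set v := (volume (AN T ∩ WW h A s)).toReal with hv
    have hv0 : 0 ≤ v := ENNReal.toReal_nonneg
    have h5 : v ≤ 4 * M * h := by
      rw [hv]
      have := ENNReal.toReal_mono ENNReal.ofReal_ne_top h3
      rwa [ENNReal.toReal_ofReal (by positivity)] at this
    have h6 : (ccnt T h A s - acnt T h A s) ^ 2 ≤ (4 * M * h) * v := by
      calc (ccnt T h A s - acnt T h A s) ^ 2 = |ccnt T h A s - acnt T h A s| ^ 2 :=
            (sq_abs _).symm
        _ ≤ v ^ 2 := pow_le_pow_left₀ (abs_nonneg _) h2 2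
        _ = v * v := sq v
        _ ≤ (4 * M * h) * v := mul_le_mul_of_nonneg_right h5 hv0
    calc ENNReal.ofReal ((ccnt T h A s - acnt T h A s) ^ 2)
        ≤ ENNReal.ofReal ((4 * M * h) * v) := ENNReal.ofReal_le_ofReal h6
      _ = ENNReal.ofReal (4 * M * h) * ENNReal.ofReal v :=
          ENNReal.ofReal_mul (by positivity)
      _ = ENNReal.ofReal (4 * M * h) * volume (AN T ∩ WW h A s) := by
          rw [hv, ENNReal.ofReal_toReal h4]
  calc ∫⁻ s, ENNReal.ofReal ((ccnt T h A s - acnt T h A s) ^ 2)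
      ≤ ∫⁻ s, ENNReal.ofReal (4 * M * h) * volume (AN T ∩ WW h A s) := lintegral_mono hle
    _ = ENNReal.ofReal (4 * M * h) * ∫⁻ s, volume (AN T ∩ WW h A s) :=
        lintegral_const_mul' _ _ ENNReal.ofReal_ne_top
    _ = ENNReal.ofReal (4 * M * h) * (ENNReal.ofReal h * volume (AN T)) := by rw [tonelli]
    _ ≤ ENNReal.ofReal (4 * M * h) * (ENNReal.ofReal h * ENNReal.ofReal (16 * T)) := by
        gcongr
        exact vol_AN h1 hT
    _ = ENNReal.ofReal (64 * M * h ^ 2 * T) := by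
        rw [← ENNReal.ofReal_mul hh0, ← ENNReal.ofReal_mul (by positivity)]
        congr 1; ring

end Pool.Agent.BTL.H61
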